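import Pool.Agent.ETPN.P
import Pool.Agent.ETPN.W
import Pool.Agent.ETPT.FL

/-!
**THEOREM 32C** (note 2801, helper32), part 1: `V_t` commutative, `u ∉ V_t` with `V_t ∩ V_u`
maximal, `c = q (t, u)`: the dichotomy for the cosets of `V_t`.
-/

set_option autoImplicit false
set_option linter.unusedSimpArgs false
set_option linter.unnecessarySeqFocus false
set_option linter.unusedSectionVars false

namespace Pool.Agent.ETPC

open Pool.Agent.Helper58.PLine (QData)
open Pool.Agent.ETCP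
open Pool.Agent.ETPF
open Pool.Agent.ETPG
open Pool.Agent.ETPN

variable {V Q : Type} [AddCommGroup V] [Module (ZMod 2) V] {D : QData V Q}

/-- `V_t` is commutative, `c = q (t, u) ≠ 0`, and `V_t ∩ V_u` is maximal among the
`V_t ∩ V_v`, `v ∉ V_t` -/
structure CC (D : QData V Q) (c : Q) (t u : V) : Prop where
  he : D.e = 0
  cne : c ≠ D.z
  hu : D.q t u = c
  hc : ∀ a b, C D t a → C D t b → C D a b
  mx : ∀ v, ¬ C D t v → (∀ a, C D t a → C D u a → C D v a) → ∀ a, C D t a → C D v a → C D u a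

namespace CC

variable {c : Q} {t u : V} (X : CC D c t u)

include X

theorem ht : Sg D c t := ⟨u, X.hu⟩

theorem su : Sg D c u := Sg.right X.hu

theorem tp : TP D c t := TP.of_comm X.he X.cne X.ht fun a v _ h1 h2 => X.hc a v h1 h2

theorem tg [Finite V] : TG D c := ⟨X.he, X.cne, fun s s' hs hs' h => by
  have := (X.tp.all hs).st s' hs' h
  rwa [add_comm] at this⟩

theorem gI {h : V} (hh : h ∈ Gm D c) (hk : C D t h) : C D u h := by
  obtain ⟨y, h1, h2⟩ := X.ht.common (TG.sl_gm X.ht hh)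
  have h3 : C D h y := (q_eq'_iff.1 (h1.trans h2.symm)).of_eq (eo (by
    abel_nf <;> simp only [ch2, ch3, ch4, add_zero, zero_add])) rfl
  have h4 : C D t (u + y) := q_eq_iff.1 (X.hu.trans h1.symm)
  have h5 := (X.hc h (u + y) hk h4).add h3
  exact (h5.of_eq rfl (eo (by
    abel_nf <;> simp only [ch2, ch3, ch4, add_zero, zero_add]))).symm

theorem Ig {i : V} (hk : C D t i) (hi : C D u i) : i ∈ Gm D c := by
  have h1 : D.q u t = c := by rw [D.symm]; exact X.hu
  have h2 : Sg D c (t + i) := Sg.right (qa h1 hi)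
  have h3 := X.tp.st _ h2 ((C.self X.he t).add hk)
  rwa [show t + i + t = i from eo (by
    abel_nf <;> simp only [ch2, ch3, ch4, add_zero, zero_add])] at h3

/-- all neighbours of `t` commute with the same elements of `V_t` -/
theorem nb {y a : V} (hy : D.q t y = c) (ha : C D t a) (h : C D u a) : C D y a := by
  have h4 : C D t (u + y) := q_eq_iff.1 (X.hu.trans hy.symm)
  have h5 := (X.hc a (u + y) ha h4).add h.symm
  exact (h5.of_eq rfl (eo (by
    abel_nf <;> simp only [ch2, ch3, ch4, add_zero, zero_add]))).symm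

theorem nut {t0 : V} (h0 : C D t t0) (h : t0 + t ∈ Gm D c) : ¬ C D u t0 := by
  intro h1
  have h2 := X.gI h ((h0).add (C.self X.he t))
  have h3 : C D u t := (h1.add h2).of_eq rfl (eo (by
    abel_nf <;> simp only [ch2, ch3, ch4, add_zero, zero_add]))
  exact X.cne (X.hu.symm.trans h3.symm)

/-- a slot has a translate by an element of the stabilizer which commutes with the stabilizer -/
theorem base [Finite V] {s : V} (hs : Sg D c s) :
    ∃ s0, s0 + s ∈ Gm D c ∧ (∀ g ∈ Gm D c, C D s0 g) ∧ ∀ v, C D s v → C D s0 v := by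
  obtain ⟨s0, h1, h2⟩ := X.tg.exists_base hs
  exact ⟨s0, h1, fun g hg => h2 g (TG.gm_sub hg), fun v hv => h2 v (X.tg.ann_sub' hs hv)⟩

theorem split [Finite V] {b : V} (hb : C D t b) :
    ∃ b0, b0 + b ∈ Gm D c ∧ C D t b0 ∧ ∀ g ∈ Gm D c, C D b0 g := by
  obtain ⟨t0, h1, h2, h3⟩ := X.base X.ht
  have h4 : C D t t0 := (h3 t (C.self X.he t)).symm
  have h5 : D.q t0 u = c := by
    have h6 : C D (t0 + t) u := (X.gI h1 (h4.add (C.self X.he t))).symm
    rw [q_eq'_iff.2 h6, X.hu]
  have h6 : Sg D c (u + b) := Sg.right (qa h5 (h3 b hb))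
  obtain ⟨u0, a1, a2, -⟩ := X.base X.su
  obtain ⟨u1, b1, b2, -⟩ := X.base h6
  have h7 : u0 + u1 + b ∈ Gm D c := by
    have := (Gm D c).add_mem a1 b1
    rwa [show u0 + u + (u1 + (u + b)) = u0 + u1 + b from eo (by
      abel_nf <;> simp only [ch2, ch3, ch4, add_zero, zero_add])] at this
  have h8 : ∀ g ∈ Gm D c, C D (u0 + u1) g := fun g hg => (a2 g hg).add' (b2 g hg)
  refine ⟨u0 + u1, h7, ?_, h8⟩
  by_contra hn
  have h9 : C D t0 (u0 + u1) := ((h2 _ h7).add (h3 b hb)).of_eq rfl (eo (by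
    abel_nf <;> simp only [ch2, ch3, ch4, add_zero, zero_add]))
  exact X.nut h4 h1 (X.mx _ hn (fun a e1 e2 => h8 a (X.Ig e1 e2)) t0 h4 h9.symm)

/-- **the dichotomy**: `s, s + b` slots, `b ∈ V_t - V_u` ==> `s ∈ N_t + Stab` -/
theorem dich [Finite V] {s b : V} (hs : Sg D c s) (hsb : Sg D c (s + b)) (hb : C D t b)
    (hb' : ¬ C D u b) : ∃ g ∈ Gm D c, D.q t (s + g) = c := by
  obtain ⟨b0, h1, h2, h3⟩ := X.split hb
  have h4 : ¬ C D u b0 := by
    intro h
    apply hb'
    have h5 := X.gI h1 (h2.add hb)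
    exact (h.add h5).of_eq rfl (eo (by
      abel_nf <;> simp only [ch2, ch3, ch4, add_zero, zero_add]))
  obtain ⟨s0, a1, a2, -⟩ := X.base hs
  have h5 : Sg D c s0 := TG.a2 hs a1
  have h6 : Sg D c (s0 + b0) := by
    have := (Gm D c).add_mem a1 h1 _ hsb
    rwa [show s + b + (s0 + s + (b0 + b)) = s0 + b0 from eo (by
      abel_nf <;> simp only [ch2, ch3, ch4, add_zero, zero_add])] at this
  obtain ⟨y, h7, h8⟩ := h5.common h6
  have h9 : C D b0 y := (q_eq'_iff.1 (h7.trans h8.symm)).of_eq (eo (by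
    abel_nf <;> simp only [ch2, ch3, ch4, add_zero, zero_add])) rfl
  obtain ⟨y0, c1, c2, -⟩ := X.base (Sg.right h7)
  have e1 : D.q s0 y0 = c := by
    have := qa h7 (a2 _ c1)
    rwa [show y + (y0 + y) = y0 from eo (by
      abel_nf <;> simp only [ch2, ch3, ch4, add_zero, zero_add])] at this
  have e2 : C D b0 y0 := (h9.add (h3 _ c1)).of_eq rfl (eo (by
    abel_nf <;> simp only [ch2, ch3, ch4, add_zero, zero_add]))
  have e3 : C D t y0 := by
    by_contra hn
    exact h4 (X.mx y0 hn (fun a f1 f2 => c2 a (X.Ig f1 f2)) b0 h2 e2.symm)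
  have e4 := X.tp.st y0 (Sg.right e1) e3
  have e5 := qa e1 (a2 _ e4)
  rw [show y0 + (y0 + t) = t from eo (by
    abel_nf <;> simp only [ch2, ch3, ch4, add_zero, zero_add])] at e5
  refine ⟨s0 + s, a1, ?_⟩
  rw [D.symm, show s + (s0 + s) = s0 from eo (by
    abel_nf <;> simp only [ch2, ch3, ch4, add_zero, zero_add])]
  exact e5

/-- the stabilizers `G_y`, `y ∈ N_t`, meet in `Stab` -/
theorem five [Finite V] {y y' g : V} (hy : D.q t y = c) (hy' : D.q t y' = c)
    (hn : ¬ C D u (y + y')) (h1 : g ∈ Gf D c y) (h2 : g ∈ Gf D c y') : g ∈ Gm D c := by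
  have s1 := Sg.right hy
  have s2 := Sg.right hy'
  have z1 : y + y ∈ Gm D c := by rw [ZModModule.add_self]; exact Submodule.zero_mem _
  have z2 : y' + y' ∈ Gm D c := by rw [ZModModule.add_self]; exact Submodule.zero_mem _
  have h3 : y ∈ Gf D c y := ann_Gf s1 z1 (C.self X.he y)
  have h4 : y' ∈ Gf D c y' := ann_Gf s2 z2 (C.self X.he y')
  have q1 : D.q y t = c := by rw [D.symm]; exact hy
  have q2 : D.q y' t = c := by rw [D.symm]; exact hy'
  have h5 : Sg D c (t + (g + y)) := slot_Gf q1 ((Gf D c y).add_mem h1 h3)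
  have h6 : Sg D c (t + (g + y')) := slot_Gf q2 ((Gf D c y').add_mem h2 h4)
  have h7 : C D t (y + y') := q_eq_iff.1 (hy.trans hy'.symm)
  have h8 : Sg D c (t + (g + y) + (y + y')) := by
    rwa [show t + (g + y) + (y + y') = t + (g + y') from eo (by
      abel_nf <;> simp only [ch2, ch3, ch4, add_zero, zero_add])]
  obtain ⟨h, h9, h10⟩ := X.dich h5 h8 h7 hn
  have e1 : C D t (g + h) := by
    have e2 : C D t (t + (g + y) + h + y) := q_eq_iff.1 (h10.trans hy.symm)
    exact ((C.self X.he t).add e2).of_eq rfl (eo (by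
      abel_nf <;> simp only [ch2, ch3, ch4, add_zero, zero_add]))
  have e3 : Sg D c (t + g + h) := h9 _ (slot_Gf q1 h1)
  have e4 := X.tp.st _ e3 (((C.self X.he t).add e1).of_eq rfl (by abel))
  have := (Gm D c).add_mem e4 h9
  rwa [show t + g + h + t + h = g from eo (by
      abel_nf <;> simp only [ch2, ch3, ch4, add_zero, zero_add])] at this

end CC

end Pool.Agent.ETPC
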