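import Pool.Agent.ETPC.C1

/-!
**THEOREM 32C** (note 2801, helper32), part 2: the counts.  A structure with `K4At` has no
`t ≠ 0` with `V_t` commutative.
-/

set_option autoImplicit false
set_option linter.unusedSimpArgs false
set_option linter.unnecessarySeqFocus false
set_option linter.unusedSectionVars false

namespace Pool.Agent.ETPC

open Pool.Agent.Helper58.PLine (QData)
open Pool.Agent.ETCP
open Pool.Agent.ETPF
open Pool.Agent.ETPG
open Pool.Agent.ETPN
open ETC (ind ind_true ind_false ind_and ind_congr ind_nonneg ind_le sum_ind_shift)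

variable {V Q : Type} [AddCommGroup V] [Module (ZMod 2) V] {D : QData V Q}

/-! ### cardinalities of subspaces -/

theorem pow_sub [Fintype V] (A : Submodule (ZMod 2) V) :
    ∃ n : ℕ, ∑ v, ind (v ∈ A) = 2 ^ n := by
  classical
  haveI : Fintype A := Fintype.ofFinite A
  refine ⟨Module.finrank (ZMod 2) A, ?_⟩
  have h1 : ∑ v, ind (v ∈ A) = (Nat.card A : ℤ) := by
    rw [Nat.card_eq_fintype_card, Fintype.card_subtype]
    unfold ind
    rw [Finset.sum_boole]
  rw [h1, Module.natCard_eq_pow_finrank (K := ZMod 2), Nat.card_zmod]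
  push_cast
  rfl

/-- a function which is constant on the cosets of `A` and divisible by `d` -/
theorem dvd_sum [Fintype V] (A : Submodule (ZMod 2) V) (f : V → ℤ) (d : ℤ)
    (h1 : ∀ y, ∀ i ∈ A, f (y + i) = f y) (h2 : ∀ y, d ∣ f y) :
    d * ∑ v, ind (v ∈ A) ∣ ∑ y, f y := by
  classical
  haveI : Fintype (V ⧸ A) := Fintype.ofFinite _
  rw [← Finset.sum_fiberwise (s := Finset.univ) (g := A.mkQ) (f := f)]
  apply Finset.dvd_sum
  intro j _
  obtain ⟨y0, rfl⟩ := A.mkQ_surjective j
  have h3 : ∑ i with A.mkQ i = A.mkQ y0, f i = f y0 * ∑ i, ind (A.mkQ i = A.mkQ y0) := by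
    rw [Finset.mul_sum, Finset.sum_filter]
    refine Finset.sum_congr rfl fun i _ => ?_
    by_cases h : A.mkQ i = A.mkQ y0
    · rw [if_pos h, ind_true h, mul_one]
      have h4 : i + y0 ∈ A := by
        have h5 : A.mkQ (i + y0) = 0 := by rw [map_add, h, ZModModule.add_self]
        exact (Submodule.Quotient.mk_eq_zero A).1 h5
      have h6 := h1 y0 _ h4
      rwa [show y0 + (i + y0) = i from eo (by
        abel_nf <;> simp only [ch2, ch3, ch4, add_zero, zero_add])] at h6
    · rw [if_neg h, ind_false h, mul_zero]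
  rw [h3, sum_ind_shift (fun i => A.mkQ i = A.mkQ y0) (fun i => i ∈ A) y0 fun v => by
    rw [map_add]
    constructor
    · intro h
      have h5 : A.mkQ v = 0 := by
        have h6 : A.mkQ v + A.mkQ y0 + A.mkQ y0 = A.mkQ y0 + A.mkQ y0 := by rw [h]
        rwa [add_assoc, ZModModule.add_self, add_zero] at h6
      exact (Submodule.Quotient.mk_eq_zero A).1 h5
    · intro h
      have h5 : A.mkQ v = 0 := (Submodule.Quotient.mk_eq_zero A).2 h
      rw [h5, zero_add]]
  exact mul_dvd_mul (h2 y0) dvd_rfl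

/-- a subspace with at least three cosets of `A` -/
theorem four_dvd [Fintype V] {A B : Submodule (ZMod 2) V} (h : ∀ a ∈ A, a ∈ B) {x y : V}
    (hx : x ∈ B) (hy : y ∈ B) (hx' : x ∉ A) (hy' : y ∉ A) (hxy : x + y ∉ A) :
    4 * ∑ v, ind (v ∈ A) ∣ ∑ v, ind (v ∈ B) := by
  obtain ⟨a, ha⟩ := pow_sub A
  obtain ⟨b, hb⟩ := pow_sub B
  have e1 : ∑ v, ind (v + x ∈ A) = ∑ v, ind (v ∈ A) := by
    have := sum_ind_shift (fun v => v ∈ A) (fun v => v + x ∈ A) x fun v => Iff.rfl
    exact this.symm
  have e2 : ∑ v, ind (v + y ∈ A) = ∑ v, ind (v ∈ A) := by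
    have := sum_ind_shift (fun v => v ∈ A) (fun v => v + y ∈ A) y fun v => Iff.rfl
    exact this.symm
  have key : ∑ v, ind (v ∈ A) + ∑ v, ind (v + x ∈ A) + ∑ v, ind (v + y ∈ A)
      ≤ ∑ v, ind (v ∈ B) := by
    rw [← Finset.sum_add_distrib, ← Finset.sum_add_distrib]
    apply Finset.sum_le_sum
    intro v _
    by_cases h1 : v ∈ A
    · have n1 : v + x ∉ A := fun h2 => hx' ((Submodule.add_mem_iff_right A h1).1 h2)
      have n2 : v + y ∉ A := fun h2 => hy' ((Submodule.add_mem_iff_right A h1).1 h2)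
      rw [ind_true h1, ind_false n1, ind_false n2, ind_true (h _ h1)]; decide
    · by_cases h2 : v + x ∈ A
      · have n2 : v + y ∉ A := fun h3 => hxy (by
          have := A.add_mem h2 h3
          rwa [show v + x + (v + y) = x + y from eo (by
            abel_nf <;> simp only [ch2, ch3, ch4, add_zero, zero_add])] at this)
        have h3 : v ∈ B := (Submodule.add_mem_iff_left B hx).1 (h _ h2)
        rw [ind_false h1, ind_true h2, ind_false n2, ind_true h3]; decide
      · by_cases h3 : v + y ∈ A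
        · have h4 : v ∈ B := (Submodule.add_mem_iff_left B hy).1 (h _ h3)
          rw [ind_false h1, ind_false h2, ind_true h3, ind_true h4]; decide
        · rw [ind_false h1, ind_false h2, ind_false h3]
          exact ind_nonneg _
  rw [e1, e2, ha, hb] at key
  rw [ha, hb]
  have h5 : a + 2 ≤ b := by
    by_contra hn
    have h6 : b ≤ a + 1 := by omega
    have h7 : (2 : ℤ) ^ b ≤ 2 ^ (a + 1) := pow_le_pow_right₀ (by norm_num) h6
    have h8 : (0 : ℤ) < 2 ^ a := by positivity
    rw [pow_succ] at h7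
    linarith
  have h6 : (4 : ℤ) * 2 ^ a = 2 ^ (a + 2) := by ring
  rw [h6]
  exact pow_dvd_pow 2 h5

namespace CC

variable {c : Q} {t u : V} (X : CC D c t u)

variable (D) in
/-- `V_t ∩ V_u` -/
def Iu (t u : V) : Submodule (ZMod 2) V :=
  mkS (fun a => C D t a ∧ C D u a) ⟨C.zero t, C.zero u⟩
    fun _ _ h h' => ⟨h.1.add h'.1, h.2.add h'.2⟩

variable (D) in
/-- `V_t` -/
def Kt (t : V) : Submodule (ZMod 2) V :=
  mkS (fun a => C D t a) (C.zero t) fun _ _ h h' => h.add h'

variable (D) in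
/-- `V_t ∩ V_u` -/
noncomputable def nI [Fintype V] (t u : V) : ℤ := ∑ a, ind (a ∈ Iu D t u)

variable (D) in
/-- `V_t` -/
noncomputable def nK [Fintype V] (t : V) : ℤ := ∑ a, ind (a ∈ Kt D t)

variable (D) in
/-- `Stab` -/
noncomputable def nH [Fintype V] (c : Q) : ℤ := ∑ a, ind (a ∈ Gm D c)

variable (D) in
/-- the slots -/
noncomputable def nS [Fintype V] (c : Q) : ℤ := ∑ a, ind (Sg D c a)

variable (D) in
/-- `N_t + Stab` -/
noncomputable def nW [Fintype V] (c : Q) (t : V) : ℤ :=
  ∑ w, ind (∃ g ∈ Gm D c, D.q t (w + g) = c)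

variable (D) in
/-- the span of the slots -/
noncomputable def nD [Fintype V] (c : Q) : ℤ :=
  ∑ w, ind (w ∈ Submodule.span (ZMod 2) {s | Sg D c s})

variable (D) in
/-- `∑ |G_y|`, `y ∈ N_t` -/
noncomputable def nY [Fintype V] (c : Q) (t : V) : ℤ :=
  ∑ y, ind (D.q t y = c) * ∑ g, ind (g ∈ Gf D c y)

include X

theorem gf_shift [Finite V] {y i : V} (hy : D.q t y = c) (hi : i ∈ Iu D t u) (g : V) :
    g ∈ Gf D c (y + i) ↔ g ∈ Gf D c y := by
  have h0 : i ∈ Gm D c := X.Ig hi.1 hi.2
  have s1 := Sg.right hy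
  have s2 : Sg D c (y + i) := h0 _ s1
  constructor
  · intro h r hr
    have h1 := h r (fm_base s1 h0 hr)
    have h2 := fm_base s2 h0 h1
    rwa [show y + i + i = y from eo (by
      abel_nf <;> simp only [ch2, ch3, ch4, add_zero, zero_add])] at h2
  · intro h r hr
    have h1 := fm_base s2 h0 hr
    rw [show y + i + i = y from eo (by
      abel_nf <;> simp only [ch2, ch3, ch4, add_zero, zero_add])] at h1
    exact fm_base s1 h0 (h r h1)

/-- for a fixed `g`: the number of `y ∈ N_t` with `g ∈ G_y` -/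
theorem cntA [Fintype V] (g : V) : ∑ y, ind (D.q t y = c ∧ g ∈ Gf D c y) =
    nK D t * ind (g ∈ Gm D c) + nI D t u * (ind (Sg D c (g + t)) - ind (g ∈ Gm D c)) := by
  by_cases h1 : g ∈ Gm D c
  · have h2 : Sg D c (g + t) := by rw [add_comm]; exact h1 _ X.ht
    rw [ind_true h1, ind_true h2, sub_self, mul_zero, add_zero, mul_one]
    unfold nK
    apply sum_ind_shift _ _ u
    intro v
    rw [q_shift X.hu]
    exact ⟨fun h => h.1, fun h => ⟨h, gm_Gf h1⟩⟩
  · rw [ind_false h1, mul_zero, zero_add, sub_zero]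
    by_cases h2 : Sg D c (g + t)
    · rw [ind_true h2, mul_one]
      obtain ⟨y0, h3, h4⟩ := X.ht.common h2
      have h5 : C D y0 g := (q_eq'_iff.1 (h3.trans h4.symm)).symm.of_eq rfl (eo (by
        abel_nf <;> simp only [ch2, ch3, ch4, add_zero, zero_add]))
      have s0 := Sg.right h3
      have z0 : y0 + y0 ∈ Gm D c := by rw [ZModModule.add_self]; exact Submodule.zero_mem _
      have h6 : g ∈ Gf D c y0 := ann_Gf s0 z0 h5
      unfold nI
      apply sum_ind_shift _ _ y0
      intro v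
      constructor
      · rintro ⟨h7, h8⟩
        have h9 : C D t v := (q_shift h3).1 h7
        refine ⟨h9, ?_⟩
        by_contra hn
        refine h1 (X.five h7 h3 ?_ h8 h6)
        intro h10
        apply hn
        exact h10.of_eq rfl (eo (by
          abel_nf <;> simp only [ch2, ch3, ch4, add_zero, zero_add]))
      · intro h7
        refine ⟨(q_shift h3).2 h7.1, ?_⟩
        rw [add_comm]
        exact (X.gf_shift h3 h7 g).2 h6
    · rw [ind_false h2, mul_zero]
      apply sum_ind_zero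
      rintro y ⟨h3, h4⟩
      apply h2
      rw [add_comm]
      exact slot_Gf (by rw [D.symm]; exact h3) h4

theorem idA [Fintype V] : nY D c t + nI D t u * nH D c = nK D t * nH D c + nI D t u * nS D c := by
  have h1 : nY D c t = ∑ g, ∑ y, ind (D.q t y = c ∧ g ∈ Gf D c y) := by
    rw [Finset.sum_comm]
    unfold nY
    refine Finset.sum_congr rfl fun y _ => ?_
    rw [Finset.mul_sum]
    exact Finset.sum_congr rfl fun g _ => (ind_and _ _).symm
  have h2 : ∑ g, ind (Sg D c (g + t)) = nS D c := by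
    unfold nS
    exact (sum_ind_shift (fun v => Sg D c v) (fun v => Sg D c (v + t)) t fun v => Iff.rfl).symm
  rw [h1, Finset.sum_congr rfl fun g _ => X.cntA g, Finset.sum_add_distrib, ← Finset.mul_sum,
    ← Finset.mul_sum, Finset.sum_sub_distrib, h2]
  unfold nH
  ring

theorem W_span {w : V} (h : ∃ g ∈ Gm D c, D.q t (w + g) = c) :
    w ∈ Submodule.span (ZMod 2) {s | Sg D c s} := by
  obtain ⟨g, h1, h2⟩ := h
  have h3 : Sg D c (w + g + g) := h1 _ (Sg.right h2)
  rw [show w + g + g = w from eo (by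
    abel_nf <;> simp only [ch2, ch3, ch4, add_zero, zero_add])] at h3
  exact Submodule.subset_span h3

theorem K_span {a : V} (h : C D t a) : a ∈ Submodule.span (ZMod 2) {s | Sg D c s} := by
  have h1 : Sg D c (u + a) := Sg.right (qa X.hu h)
  have h2 := Submodule.add_mem _ (Submodule.subset_span (R := ZMod 2) (s := {s | Sg D c s}) X.su)
    (Submodule.subset_span (R := ZMod 2) (s := {s | Sg D c s}) h1)
  rwa [show u + (u + a) = a from eo (by
    abel_nf <;> simp only [ch2, ch3, ch4, add_zero, zero_add])] at h2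

/-- for a fixed `w`: the number of `a ∈ V_t` with `w + a ∈ S` -/
theorem cntB [Fintype V] (w : V) : ∑ a, ind (a ∈ Kt D t ∧ Sg D c (w + a)) =
    nK D t * ind (∃ g ∈ Gm D c, D.q t (w + g) = c) + nI D t u *
      (ind (w ∈ Submodule.span (ZMod 2) {s | Sg D c s}) -
        ind (∃ g ∈ Gm D c, D.q t (w + g) = c)) := by
  by_cases h1 : ∃ g ∈ Gm D c, D.q t (w + g) = c
  · rw [ind_true h1, ind_true (X.W_span h1), sub_self, mul_zero, add_zero, mul_one]
    obtain ⟨g, h2, h3⟩ := h1
    unfold nK
    refine Finset.sum_congr rfl fun a _ => ind_congr ?_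
    refine ⟨fun h => h.1, fun h => ⟨h, ?_⟩⟩
    have h4 : Sg D c (w + g + a) := Sg.right (qa h3 h)
    have h5 := h2 _ h4
    rwa [show w + g + a + g = w + a from eo (by
      abel_nf <;> simp only [ch2, ch3, ch4, add_zero, zero_add])] at h5
  · rw [ind_false h1, mul_zero, zero_add, sub_zero]
    by_cases h2 : w ∈ Submodule.span (ZMod 2) {s | Sg D c s}
    · rw [ind_true h2, mul_one]
      have h3 : w + u ∈ Submodule.span (ZMod 2) {s | Sg D c s} :=
        Submodule.add_mem _ h2 (Submodule.subset_span X.su)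
      obtain ⟨s, hs, h4⟩ := Pool.Agent.ETPT.cm_span X.he ⟨t, X.ht⟩ h3
      obtain ⟨y, h5, h6⟩ := hs.common X.ht
      have h7 : Sg D c (y + (w + u)) := Sg.right (qa h5 h4)
      have h8 : D.q t y = c := h6
      have h9 : C D t (y + u) := q_eq_iff.1 (h8.trans X.hu.symm)
      have h10 : Sg D c (w + (y + u)) := by
        rwa [show w + (y + u) = y + (w + u) from by abel]
      unfold nI
      apply sum_ind_shift _ _ (y + u)
      intro a
      constructor
      · rintro ⟨e1, e2⟩
        have e3 : C D t a := (C_shift h9).1 e1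
        refine ⟨e3, ?_⟩
        by_contra hn
        have e4 : Sg D c (w + (y + u) + a) := by
          rwa [show w + (y + u) + a = w + (a + (y + u)) from by abel]
        obtain ⟨g, e5, e6⟩ := X.dich h10 e4 e3 hn
        refine h1 ⟨g, e5, ?_⟩
        have e7 := qa e6 h9
        rwa [show w + (y + u) + g + (y + u) = w + g from eo (by
          abel_nf <;> simp only [ch2, ch3, ch4, add_zero, zero_add])] at e7
      · intro e1
        refine ⟨(C_shift h9).2 e1.1, ?_⟩
        have e2 := X.Ig e1.1 e1.2 _ h10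
        rwa [show w + (y + u) + a = w + (a + (y + u)) from by abel] at e2
    · rw [ind_false h2, mul_zero]
      apply sum_ind_zero
      rintro a ⟨h3, h4⟩
      apply h2
      have h5 := Submodule.add_mem _ (Submodule.subset_span (R := ZMod 2)
        (s := {s | Sg D c s}) h4) (X.K_span h3)
      rwa [show w + a + a = w from eo (by
        abel_nf <;> simp only [ch2, ch3, ch4, add_zero, zero_add])] at h5

theorem idB [Fintype V] : nK D t * nS D c =
    nK D t * nW D c t + nI D t u * (nD D c - nW D c t) := by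
  have h1 : ∑ w, ∑ a, ind (a ∈ Kt D t ∧ Sg D c (w + a)) = nK D t * nS D c := by
    rw [Finset.sum_comm]
    unfold nK
    rw [Finset.sum_mul]
    refine Finset.sum_congr rfl fun a _ => ?_
    have : ∑ w, ind (Sg D c (w + a)) = nS D c := by
      unfold nS
      exact (sum_ind_shift (fun v => Sg D c v) (fun v => Sg D c (v + a)) a fun v => Iff.rfl).symm
    rw [← this, Finset.mul_sum]
    exact Finset.sum_congr rfl fun g _ => ind_and _ _
  rw [← h1, Finset.sum_congr rfl fun w _ => X.cntB w, Finset.sum_add_distrib, ← Finset.mul_sum,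
    ← Finset.mul_sum, Finset.sum_sub_distrib]
  rfl

theorem idC [Fintype V] : nI D t u * nW D c t = nK D t * nH D c := by
  have h1 : ∑ g, ∑ w, ind (g ∈ Gm D c ∧ D.q t (w + g) = c) = nK D t * nH D c := by
    unfold nH
    rw [Finset.mul_sum]
    refine Finset.sum_congr rfl fun g _ => ?_
    have : ∑ w, ind (D.q t (w + g) = c) = nK D t := by
      have e1 := sum_ind_shift (fun v => D.q t v = c) (fun v => D.q t (v + g) = c) g
        fun v => Iff.rfl
      have e2 := sum_ind_shift (fun v => D.q t v = c) (fun v => v ∈ Kt D t) u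
        fun v => q_shift X.hu
      rw [← e1, e2]; rfl
    rw [← this, mul_comm, Finset.mul_sum]
    exact Finset.sum_congr rfl fun w _ => ind_and _ _
  rw [← h1, Finset.sum_comm]
  unfold nW
  rw [Finset.mul_sum]
  refine Finset.sum_congr rfl fun w _ => ?_
  by_cases h2 : ∃ g ∈ Gm D c, D.q t (w + g) = c
  · rw [ind_true h2, mul_one]
    obtain ⟨g0, h3, h4⟩ := h2
    symm
    unfold nI
    apply sum_ind_shift _ _ g0
    intro g
    constructor
    · rintro ⟨e1, e2⟩
      have e3 : g ∈ Gm D c := (mem_shift' h3).1 e1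
      have e4 : C D t (w + (g + g0) + (w + g0)) := q_eq_iff.1 (e2.trans h4.symm)
      have e5 : C D t g := e4.of_eq rfl (eo (by
        abel_nf <;> simp only [ch2, ch3, ch4, add_zero, zero_add]))
      exact ⟨e5, X.gI e3 e5⟩
    · intro e1
      have e2 := X.Ig e1.1 e1.2
      refine ⟨(mem_shift' h3).2 e2, ?_⟩
      have e3 := qa h4 e1.1
      rwa [show w + g0 + g = w + (g + g0) from by abel] at e3
  · rw [ind_false h2, mul_zero]
    symm
    apply sum_ind_zero
    rintro g h3
    exact h2 ⟨g, h3⟩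

/-- all `|G_y|` are divisible by `4 |Stab|` -/
theorem dvd_y [Fintype V] (k4 : ∀ z, z ≠ 0 → ETCD2.K4At D z) {y : V} (hy : D.q t y = c) :
    4 * nH D c ∣ ∑ g, ind (g ∈ Gf D c y) := by
  have hs := Sg.right hy
  by_contra hn
  apply false_of_W X.he X.cne k4 hs
  intro v hv
  by_contra hcon
  push Not at hcon
  apply hn
  have z0 : y + y ∈ Gm D c := by rw [ZModModule.add_self]; exact Submodule.zero_mem _
  refine four_dvd (fun a ha => gm_Gf ha) (x := v) (y := y) (ann_Gf hs z0 hv)
    (ann_Gf hs z0 (C.self X.he y)) hcon.1 ?_ hcon.2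
  intro h1
  have h2 := h1 _ hs
  rw [ZModModule.add_self] at h2
  exact X.tg.ne_zero h2 rfl

theorem dvd_Y [Fintype V] (k4 : ∀ z, z ≠ 0 → ETCD2.K4At D z) :
    4 * nH D c * nI D t u ∣ nY D c t := by
  unfold nY nI
  apply dvd_sum (Iu D t u)
  · intro y i hi
    by_cases h1 : D.q t y = c
    · have h2 : D.q t (y + i) = c := qa h1 hi.1
      rw [ind_true h1, ind_true h2, Finset.sum_congr rfl fun g _ =>
        ind_congr (X.gf_shift h1 hi g)]
    · have h2 : ¬ D.q t (y + i) = c := by
        intro h3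
        apply h1
        have := qa h3 hi.1
        rwa [show y + i + i = y from eo (by
          abel_nf <;> simp only [ch2, ch3, ch4, add_zero, zero_add])] at this
      rw [ind_false h1, ind_false h2, zero_mul, zero_mul]
  · intro y
    by_cases h1 : D.q t y = c
    · rw [ind_true h1, one_mul]
      exact X.dvd_y k4 h1
    · rw [ind_false h1, zero_mul]
      exact dvd_zero _

theorem le_Y [Fintype V] (k4 : ∀ z, z ≠ 0 → ETCD2.K4At D z) :
    4 * nH D c * nK D t ≤ nY D c t := by
  have e2 : nK D t = ∑ y, ind (D.q t y = c) := by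
    rw [sum_ind_shift (fun v => D.q t v = c) (fun v => v ∈ Kt D t) u fun v => q_shift X.hu]
    rfl
  rw [e2]
  unfold nY
  rw [Finset.mul_sum]
  apply Finset.sum_le_sum
  intro y _
  by_cases h1 : D.q t y = c
  · rw [ind_true h1, one_mul, mul_one]
    exact Int.le_of_dvd (sum_ind_pos (Submodule.zero_mem (Gf D c y))) (X.dvd_y k4 h1)
  · rw [ind_false h1, zero_mul, mul_zero]

theorem false [Finite V] (k4 : ∀ z, z ≠ 0 → ETCD2.K4At D z) : False := by
  haveI : Fintype V := Fintype.ofFinite V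
  obtain ⟨i, hi⟩ := pow_sub (Iu D t u)
  obtain ⟨k, hk⟩ := pow_sub (Kt D t)
  obtain ⟨b, hb⟩ := pow_sub (Gm D c)
  obtain ⟨d, hd⟩ := pow_sub (Submodule.span (ZMod 2) {s | Sg D c s})
  have hI : nI D t u = 2 ^ i := hi
  have hK : nK D t = 2 ^ k := hk
  have hH : nH D c = 2 ^ b := hb
  have hD : nD D c = 2 ^ d := hd
  -- `V_t ≠ V_t ∩ V_u`
  have h1 : nI D t u < nK D t := by
    unfold nI nK
    apply Finset.sum_lt_sum
    · intro v _
      exact ind_le fun h => h.1
    · refine ⟨t, Finset.mem_univ _, ?_⟩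
      have h2 : t ∈ Kt D t := C.self X.he t
      have h3 : t ∉ Iu D t u := fun h => X.cne (by
        rw [← X.hu, D.symm]; exact h.2)
      rw [ind_true h2, ind_false h3]; decide
  rw [hI, hK] at h1
  have h2 : i < k := (pow_lt_pow_iff_right₀ (by norm_num)).1 h1
  obtain ⟨m, hm⟩ : ∃ m, k = i + 1 + m := ⟨k - (i + 1), by omega⟩
  obtain ⟨x, hx⟩ := X.dvd_Y k4
  have hle := X.le_Y k4
  have A := X.idA
  have B := X.idB
  have E := X.idC
  rw [hx, hI, hK, hH] at A
  rw [hI, hK, hD] at B
  rw [hI, hK, hH] at E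
  rw [hx, hI, hK, hH] at hle
  rw [hm] at A B E hle
  have pi : (0 : ℤ) < 2 ^ i := by positivity
  have pb : (0 : ℤ) < 2 ^ b := by positivity
  have pm : (0 : ℤ) < 2 ^ m := by positivity
  have ek : (2 : ℤ) ^ (i + 1 + m) = 2 ^ i * (2 * 2 ^ m) := by ring
  rw [ek] at A B E hle
  -- `Wn = m h`
  have hW : nW D c t = 2 * 2 ^ m * 2 ^ b := by
    have : (2 : ℤ) ^ i * nW D c t = 2 ^ i * (2 * 2 ^ m * 2 ^ b) := by rw [E]; ring
    exact mul_left_cancel₀ pi.ne' this
  have hS : nS D c = 4 * 2 ^ b * x + 2 ^ b - 2 * 2 ^ m * 2 ^ b := by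
    have : (2 : ℤ) ^ i * nS D c = 2 ^ i * (4 * 2 ^ b * x + 2 ^ b - 2 * 2 ^ m * 2 ^ b) := by
      linear_combination -A
    exact mul_left_cancel₀ pi.ne' this
  have hDD : (2 : ℤ) ^ d = 2 ^ (m + 2 + b) * (2 * x + 1 - 2 * 2 ^ m) := by
    have : (2 : ℤ) ^ i * 2 ^ d = 2 ^ i * (2 ^ (m + 2 + b) * (2 * x + 1 - 2 * 2 ^ m)) := by
      rw [hW, hS] at B
      have e1 : (2 : ℤ) ^ (m + 2 + b) = 4 * 2 ^ m * 2 ^ b := by ring
      rw [e1]
      linear_combination -B
    exact mul_left_cancel₀ pi.ne' this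
  have hx2 : 2 * 2 ^ m ≤ x := by
    have e1 : (4 * 2 ^ b * 2 ^ i) * (2 * 2 ^ m) ≤ (4 * 2 ^ b * 2 ^ i) * x := by
      calc (4 * 2 ^ b * 2 ^ i) * (2 * 2 ^ m) = 4 * 2 ^ b * (2 ^ i * (2 * 2 ^ m)) := by ring
        _ ≤ _ := hle
    exact le_of_mul_le_mul_left e1 (by positivity)
  have hdv : (2 * x + 1 - 2 * 2 ^ m) ∣ (2 : ℤ) ^ d := ⟨2 ^ (m + 2 + b), by rw [hDD]; ring⟩
  have hpos : 2 * x + 1 - 2 * 2 ^ m ≥ 3 := by nlinarith
  obtain ⟨n, -, hn⟩ := (Int.natAbs_dvd_natAbs.2 hdv |> fun h => by
    rw [Int.natAbs_pow] at h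
    exact (Nat.dvd_prime_pow Nat.prime_two).1 h : ∃ n ≤ d, (2 * x + 1 - 2 * 2 ^ m).natAbs = 2 ^ n)
  have hn2 : 2 * x + 1 - 2 * 2 ^ m = 2 ^ n := by
    have : ((2 * x + 1 - 2 * 2 ^ m).natAbs : ℤ) = 2 * x + 1 - 2 * 2 ^ m :=
      Int.natAbs_of_nonneg (by linarith)
    rw [← this, hn]; push_cast; rfl
  rcases n with _ | n
  · rw [pow_zero] at hn2
    linarith
  · rw [pow_succ] at hn2
    generalize (2 : ℤ) ^ m = M at *
    generalize (2 : ℤ) ^ n = N at *
    omega

end CC

/-- **THEOREM 32C** (note 2801, helper32): a structure with `K4At` has no `t ≠ 0` with `V_t`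
commutative. -/
theorem false_of_comm_ann [Finite V] (he : D.e = 0) (k4 : ∀ z, z ≠ 0 → ETCD2.K4At D z)
    {t u0 : V} (h0 : ¬ C D t u0) (hc : ∀ a b, C D t a → C D t b → C D a b) : False := by
  classical
  haveI : Fintype V := Fintype.ofFinite V
  obtain ⟨u, hu, hmax⟩ := Finset.exists_max_image (Finset.univ.filter fun v => ¬ C D t v)
    (fun v => (Finset.univ.filter fun a => C D t a ∧ C D v a).card)
    ⟨u0, by simpa using h0⟩
  have hu' : ¬ C D t u := by simpa using hu
  have X : CC D (D.q t u) t u := {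
    he := he
    cne := hu'
    hu := rfl
    hc := hc
    mx := by
      intro v hv h1 a h2 h3
      have h4 := hmax v (by simpa using hv)
      have h5 : (Finset.univ.filter fun a => C D t a ∧ C D u a) ⊆
          (Finset.univ.filter fun a => C D t a ∧ C D v a) := by
        intro a ha
        simp only [Finset.mem_filter, Finset.mem_univ, true_and] at ha ⊢
        exact ⟨ha.1, h1 a ha.1 ha.2⟩
      have h6 := Finset.eq_of_subset_of_card_le h5 h4
      have h7 : a ∈ (Finset.univ.filter fun a => C D t a ∧ C D v a) := by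
        simp only [Finset.mem_filter, Finset.mem_univ, true_and]
        exact ⟨h2, h3⟩
      rw [← h6] at h7
      simp only [Finset.mem_filter, Finset.mem_univ, true_and] at h7
      exact h7.2 }
  exact X.false k4

end Pool.Agent.ETPC
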